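import Pool.Agent.Helper38.WY.Goals1
import Pool.Agent.Helper6.PW.LLC0

/-!
# Project WY (MP_fc6b1e_nt), packet Y_LC0: local condition above `p`
-/

set_option autoImplicit false

namespace Pool.Agent.Helper94.WY

open NumberField Module IsDedekindDomain Finset
open Pool.Agent.Helper42.PW Pool.Agent.Helper38.WY Pool.Agent.Helper6.PW.LC

section dec

variable {M F : Type} [Field M] [Field F] [NumberField F] [Algebra M F]

/-- The decomposition group is generated by `σ` and an element of order prime to `p`. -/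
theorem dec_gen {p : ℕ} [hp : Fact p.Prime] (W : HeightOneSpectrum (𝓞 F)) {ε : F}
    (hε : IsPrimitiveRoot ε p) (σ : F ≃ₐ[M] F) (t : ℕ) (hσ : orderOf σ = p ^ t)
    (hker : ∀ g : F ≃ₐ[M] F, g ∈ Dec M W → g ε = ε → ∃ i : ℕ, g = σ ^ i) :
    ∃ g₀ : F ≃ₐ[M] F, g₀ ∈ Dec M W ∧ (∀ g ∈ Dec M W, ∃ i j : ℕ, g = g₀ ^ j * σ ^ i) ∧
      ∃ d : ℕ, 0 < d ∧ d.Coprime p ∧ g₀ ^ d = 1 := by
  have : NeZero p := ⟨hp.out.ne_zero⟩
  let f : Dec M W →* (ZMod p)ˣ := (hε.autToPow M).comp (Dec M W).subtype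
  have hf : ∀ g : Dec M W, f g = 1 → ∃ i : ℕ, (g : F ≃ₐ[M] F) = σ ^ i := by
    intro g hg
    have h1 := hε.autToPow_spec M (g : F ≃ₐ[M] F)
    have h2 : hε.autToPow M (g : F ≃ₐ[M] F) = 1 := hg
    rw [h2, Units.val_one, ZMod.val_one, pow_one] at h1
    exact hker _ g.2 h1.symm
  obtain ⟨⟨_, ⟨h, rfl⟩⟩, hgen⟩ := IsCyclic.exists_generator (α := f.range)
  have hgen' : ∀ g : Dec M W, ∃ j : ℕ, f h ^ j = f g := by
    intro g
    obtain ⟨j, hj⟩ := (mem_powers_iff_mem_zpowers.2 (hgen ⟨f g, ⟨g, rfl⟩⟩))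
    exact ⟨j, congrArg Subtype.val hj⟩
  have h1 : f h ^ (p - 1) = 1 := ZMod.units_pow_card_sub_one_eq_one p (f h)
  have h3 : (p - 1).Coprime p := by
    have := hp.out.one_lt
    exact (Nat.coprime_self_sub_left this.le).2 (Nat.coprime_one_left p)
  have h4 : (p ^ t).Coprime (orderOf (f h)) :=
    (Nat.Coprime.coprime_dvd_left (orderOf_dvd_of_pow_eq_one h1) (h3.pow_right t)).symm
  obtain ⟨m, hm⟩ := exists_pow_eq_self_of_coprime h4
  have h5 : f (h ^ (p ^ t * m)) = f h := by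
    rw [map_pow, pow_mul, hm]
  obtain ⟨i, hi⟩ := hf (h ^ (p - 1)) (by rw [map_pow, h1])
  refine ⟨(h : F ≃ₐ[M] F) ^ (p ^ t * m), (h ^ (p ^ t * m)).2, ?_, p - 1, ?_, h3, ?_⟩
  · intro g hg
    obtain ⟨j, hj⟩ := hgen' ⟨g, hg⟩
    obtain ⟨i', hi'⟩ := hf (((h ^ (p ^ t * m)) ^ j)⁻¹ * ⟨g, hg⟩) (by
      rw [map_mul, map_inv, map_pow f (h ^ (p ^ t * m)) j, h5, hj, inv_mul_cancel])
    refine ⟨i', j, ?_⟩
    have e1 : (((h ^ (p ^ t * m)) ^ j)⁻¹ * ⟨g, hg⟩ : Dec M W).1 =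
        (((h : F ≃ₐ[M] F) ^ (p ^ t * m)) ^ j)⁻¹ * g := rfl
    rw [e1] at hi'
    rw [← hi', mul_inv_cancel_left]
  · have := hp.out.one_lt
    omega
  · have e1 : (h : F ≃ₐ[M] F) ^ (p - 1) = σ ^ i := hi
    have e2 : (((h : F ≃ₐ[M] F) ^ (p ^ t * m)) ^ (p - 1)) =
        ((h : F ≃ₐ[M] F) ^ (p - 1)) ^ (p ^ t * m) := by
      rw [← pow_mul, ← pow_mul, mul_comm]
    have e3 : σ ^ (p ^ t) = 1 := by
      rw [← hσ]
      exact pow_orderOf_eq_one σ
    rw [e2, e1, ← pow_mul, mul_comm i, mul_assoc, pow_mul, e3, one_pow]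

end dec

theorem y_lc0 (h1 : L_PRM) (h2 : L_CLO) (h3 : L_DEN) (h4 : L_RT) (h5 : L_ISO) (h6 : Y_LOC)
    (h7 : N_ALG) : Y_LC0 := by
  classical
  intro p hp k _ _ _ hι M F _ _ _ _ _ _ ε α hε hα W hWp hcomm hD σ s hσs hσε hσW hker hprod hnp
  obtain ⟨τ, hτ⟩ := h1 p k hι F W hWp
  obtain ⟨ι⟩ := hι
  have hp1 : (1 : ℝ) < p := by exact_mod_cast hp.out.one_lt
  have hp3 : (1 / p : ℝ) ^ 3 < 1 := by
    refine pow_lt_one₀ (by positivity) ?_ (by norm_num)
    rw [div_lt_one (by linarith)]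
    exact hp1
  have hp3' : (0 : ℝ) < (1 / p : ℝ) ^ 3 := by positivity
  have hτp : ‖τ ((p : F) ^ 3)‖ = (1 / p : ℝ) ^ 3 := by
    have e : τ ((p : F) ^ 3) = algebraMap ℚ_[p] k ((p : ℚ_[p]) ^ 3) := by
      rw [map_pow, map_natCast, map_pow, map_natCast]
    rw [e, norm_algebraMap', norm_pow, Padic.norm_p, one_div]
  -- translation
  have hcl : ∀ u : F, Cl p W u ↔ ‖τ u - 1‖ ≤ (1 / p : ℝ) ^ 3 := by
    intro u
    have e1 : W.valuation F (u - 1) ≤ W.valuation F (p : F) ^ 3 ↔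
        ‖τ u - 1‖ ≤ (1 / p : ℝ) ^ 3 := by
      rw [← map_pow, hτ, hτp, map_sub, map_one]
    constructor
    · intro h
      exact e1.1 h.2
    · intro h
      refine ⟨(e1.2 h).trans_lt ?_, e1.2 h⟩
      exact pow_lt_one₀ zero_le hWp (by norm_num)
  have hdec : ∀ g : F ≃ₐ[M] F, (∀ y, ‖τ (g y)‖ = ‖τ y‖) ↔ g ∈ Dec M W := by
    intro g
    constructor
    · intro h y
      exact le_antisymm ((hτ _ _).2 (h y).le) ((hτ _ _).2 (h y).ge)
    · intro h y
      exact le_antisymm ((hτ _ _).1 (h y).le) ((hτ _ _).1 (h y).ge)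
  obtain ⟨𝓕, hfd, h, hdense, hext⟩ := h2 p k F τ
  let t : F →+* 𝓕 := τ.codRestrict 𝓕 h
  have ht : ∀ x, ((t x : 𝓕) : k) = τ x := fun _ => rfl
  have htn : ∀ x, ‖t x‖ = ‖τ x‖ := fun _ => rfl
  -- automorphisms of `𝓕` which agree on `F` are equal
  have huniq : ∀ A B : 𝓕 ≃ₐ[ℚ_[p]] 𝓕, (∀ x, A (t x) = B (t x)) → A = B := by
    intro A B hAB
    ext y
    have hy : ∀ e : ℝ, 0 < e → ‖A y - B y‖ ≤ e := by
      intro e he
      obtain ⟨x, hx⟩ := hdense y y.2 e he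
      have hx' : ‖y - t x‖ < e := hx
      have e1 : A y - B y = A (y - t x) + B (t x - y) := by
        rw [map_sub, map_sub, hAB]
        ring
      rw [e1]
      refine (IsUltrametricDist.norm_add_le_max _ _).trans (max_le ?_ ?_)
      · rw [h5 p 𝓕 A]
        exact hx'.le
      · rw [h5 p 𝓕 B, norm_sub_rev]
        exact hx'.le
    have h8 : ‖A y - B y‖ ≤ 0 := le_of_forall_pos_le_add fun e he => by
      rw [zero_add]
      exact hy e he
    have h9 : A y - B y = 0 := norm_le_zero_iff.1 h8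
    exact congrArg (fun z : 𝓕 => (z : k)) (sub_eq_zero.1 h9)
  -- the generators
  obtain ⟨g₀, hg₀, hgen, d, hd0, hdp, hgd⟩ := dec_gen (M := M) W hε σ s hσs hker
  obtain ⟨n, c, hgε, hgα⟩ := hD g₀ hg₀
  obtain ⟨G, hG⟩ := hext (g₀ : F ≃+* F) fun x => (hdec g₀).2 hg₀ x
  have hG' : ∀ x, G (t x) = t (g₀ x) := fun x => Subtype.ext (hG x)
  have hGj : ∀ (j : ℕ) (x : F), (G ^ j) (t x) = t ((g₀ ^ j) x) := by
    intro j
    induction j with
    | zero => intro x; rfl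
    | succ j ih =>
      intro x
      rw [pow_succ, pow_succ]
      show (G ^ j) (G (t x)) = t ((g₀ ^ j) (g₀ x))
      rw [hG', ih]
  have hGd : G ^ d = 1 := huniq _ _ fun x => by
    rw [hGj, hgd]
    rfl
  obtain ⟨S, hS⟩ := hext (σ : F ≃+* F) fun x => (hdec σ).2 hσW x
  have hS' : ∀ x, S (t x) = t (σ x) := fun x => Subtype.ext (hS x)
  have hSj : ∀ (j : ℕ) (x : F), (S ^ j) (t x) = t ((σ ^ j) x) := by
    intro j
    induction j with
    | zero => intro x; rfl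
    | succ j ih =>
      intro x
      rw [pow_succ, pow_succ]
      show (S ^ j) (S (t x)) = t ((σ ^ j) (σ x))
      rw [hS', ih]
  have hSo : orderOf S = p ^ s := by
    rw [← hσs]
    refine orderOf_eq_orderOf_iff.2 fun m => ⟨fun hm => ?_, fun hm => ?_⟩
    · ext x
      have e1 := hSj m x
      rw [hm] at e1
      exact (t.injective e1).symm
    · refine huniq _ _ fun x => ?_
      rw [hSj, hm]
      rfl
  have hGS : G * S = S * G := huniq _ _ fun x => by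
    show G (S (t x)) = S (G (t x))
    rw [hS', hG', hG', hS']
    have e1 : g₀ (σ x) = σ (g₀ x) := congrArg (fun g : F ≃ₐ[M] F => g x) (hcomm g₀ σ)
    rw [e1]
  obtain ⟨e, he⟩ : ∃ e : F, σ α = α * e ^ p := by
    obtain ⟨n', c', hσε', hσα⟩ := hD σ hσW
    rw [hσε] at hσε'
    have e1 : ε ^ 1 = ε ^ n' := by rw [pow_one]; exact hσε'
    have e2 : n' ≠ 0 := by
      rintro rfl
      rw [pow_zero] at hσε'
      exact hε.ne_one hp.out.one_lt hσε'
    have e3 : p ∣ n' - 1 := by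
      have h8 : ε ^ (n' - 1) = 1 := by
        have h9 : ε ^ (n' - 1) * ε = 1 * ε := by
          rw [← pow_succ, Nat.sub_add_cancel (Nat.pos_of_ne_zero e2), one_mul]
          exact hσε'.symm
        exact mul_right_cancel₀ (hε.ne_zero hp.out.ne_zero) h9
      exact hε.dvd_of_pow_eq_one _ h8
    obtain ⟨l, hl⟩ := e3
    have e4 : n' = 1 + l * p := by
      rw [mul_comm l, ← hl]
      have := Nat.pos_of_ne_zero e2
      omega
    refine ⟨α ^ l * c', ?_⟩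
    rw [hσα, e4, mul_pow, ← pow_mul, pow_add, pow_one, mul_assoc]
  -- `α` is not a `p`-th power
  have hαt : t α ≠ 0 := (map_ne_zero t).2 hα
  have hnb : ¬ ∃ b : 𝓕, b ^ p = t α := by
    rintro ⟨b, hb⟩
    have hb0 : b ≠ 0 := by
      rintro rfl
      rw [zero_pow hp.out.ne_zero] at hb
      exact hαt hb.symm
    have hbn : 0 < ‖b‖ := norm_pos_iff.2 hb0
    obtain ⟨y, hy⟩ := hdense (b⁻¹ : 𝓕) (b⁻¹ : 𝓕).2 ((1 / p : ℝ) ^ 3 / ‖b‖) (by positivity)
    have hy' : ‖b⁻¹ - t y‖ < (1 / p : ℝ) ^ 3 / ‖b‖ := hy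
    apply hnp
    refine ⟨y, (hcl _).2 ?_⟩
    have e1 : ‖b * t y - 1‖ ≤ (1 / p : ℝ) ^ 3 := by
      have e2 : b * t y - 1 = - (b * (b⁻¹ - t y)) := by
        rw [mul_sub, mul_inv_cancel₀ hb0]
        ring
      rw [e2, norm_neg, norm_mul, mul_comm]
      rw [lt_div_iff₀ hbn] at hy'
      exact hy'.le
    have e3 := norm_pow_sub_one hp3 e1 p
    have e4 : (b * t y) ^ p = t (α * y ^ p) := by
      rw [mul_pow, hb, map_mul, map_pow]
    rw [e4] at e3
    exact e3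
  have hck : CharZero k := charZero_of_injective_algebraMap (algebraMap ℚ_[p] k).injective
  obtain ⟨β, hβ⟩ := exists_root ι τ α p hp.out.pos
  -- the element `u`
  obtain ⟨u, hu0, hGu, hSu, hu⟩ := h6 p k 𝓕 (t ε) (t α) β
    (hε.map_of_injective t.injective) hαt hβ hnb G S n d s (t c) (t e)
    (by rw [hG', hgε, map_pow]) (by rw [hG', hgα, map_mul, map_pow, map_pow]) hd0 hdp hGd hGS
    (by rw [hS', hσε]) (by rw [hS', he, map_mul, map_pow]) hSo (by
      intro hs0 hpr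
      refine hprod hs0 e he ?_
      apply t.injective
      rw [map_prod, map_one, ← hpr]
      exact Finset.prod_congr rfl fun i _ => (hSj i e).symm)
  have hun : 0 < ‖u‖ := norm_pos_iff.2 hu0
  have hGju : ∀ j : ℕ, (G ^ j) u = u := by
    intro j
    induction j with
    | zero => rfl
    | succ j ih =>
      rw [pow_succ]
      show (G ^ j) (G u) = u
      rw [hGu, ih]
  have hSju : ∀ j : ℕ, (S ^ j) u = u := by
    intro j
    induction j with
    | zero => rfl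
    | succ j ih =>
      rw [pow_succ]
      show (S ^ j) (S u) = u
      rw [hSu, ih]
  obtain ⟨C, hC, hCx⟩ := h3 p k M F τ
  obtain ⟨y, hy⟩ := hdense u u.2 ((1 / p : ℝ) ^ 3 * ‖u‖ / (C + 1)) (by positivity)
  have hy' : ‖u - t y‖ < (1 / p : ℝ) ^ 3 * ‖u‖ / (C + 1) := hy
  obtain ⟨x, hx⟩ := hCx y ((1 / p : ℝ) ^ 3 * ‖u‖ / (C + 1)) (by positivity) (by
    intro g hg
    obtain ⟨i, j, rfl⟩ := hgen g ((hdec g).1 hg)
    have e0 : t ((g₀ ^ j * σ ^ i) y) = (G ^ j * S ^ i) (t y) := by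
      show t ((g₀ ^ j) ((σ ^ i) y)) = (G ^ j) ((S ^ i) (t y))
      rw [hSj, hGj]
    have e3 : (G ^ j * S ^ i) u = u := by
      show (G ^ j) ((S ^ i) u) = u
      rw [hSju, hGju]
    have e1 : t ((g₀ ^ j * σ ^ i) y) - t y = (G ^ j * S ^ i) (t y - u) + (u - t y) := by
      rw [map_sub, e0, e3]
      ring
    have e2 : ‖t ((g₀ ^ j * σ ^ i) y) - t y‖ ≤ (1 / p : ℝ) ^ 3 * ‖u‖ / (C + 1) := by
      rw [e1]
      refine (IsUltrametricDist.norm_add_le_max _ _).trans (max_le ?_ hy'.le)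
      rw [h5 p 𝓕 (G ^ j * S ^ i), norm_sub_rev]
      exact hy'.le
    exact e2)
  have hx' : ‖t (algebraMap M F x) - t y‖ ≤ C * ((1 / p : ℝ) ^ 3 * ‖u‖ / (C + 1)) := hx
  have hxu : ‖t (algebraMap M F x) - u‖ ≤ (1 / p : ℝ) ^ 3 * ‖u‖ := by
    have e1 : t (algebraMap M F x) - u = (t (algebraMap M F x) - t y) + (t y - u) := by ring
    rw [e1]
    have hq : 0 < (1 / p : ℝ) ^ 3 * ‖u‖ / (C + 1) := by positivity
    have hsum : (C + 1) * ((1 / p : ℝ) ^ 3 * ‖u‖ / (C + 1)) = (1 / p : ℝ) ^ 3 * ‖u‖ := by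
      field_simp
    refine (IsUltrametricDist.norm_add_le_max _ _).trans (max_le (hx'.trans ?_) ?_)
    · nlinarith
    · rw [norm_sub_rev]
      refine hy'.le.trans ?_
      nlinarith
  have hxu' : ‖t (algebraMap M F x) * u⁻¹ - 1‖ ≤ (1 / p : ℝ) ^ 3 := by
    have e1 : t (algebraMap M F x) * u⁻¹ - 1 = (t (algebraMap M F x) - u) * u⁻¹ := by
      rw [sub_mul, mul_inv_cancel₀ hu0]
    rw [e1, norm_mul, norm_inv, ← div_eq_mul_inv, div_le_iff₀ hun]
    exact hxu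
  have hx0 : x ≠ 0 := by
    rintro rfl
    rw [map_zero, map_zero, zero_mul, zero_sub, norm_neg, norm_one] at hxu'
    linarith
  refine ⟨Units.mk0 x hx0, ?_⟩
  rw [Units.val_mk0]
  rintro ⟨z, hz⟩
  obtain ⟨v, hv, -⟩ := (h4 p 𝓕).1 _ hxu'
  have hz' : ‖t (algebraMap M F x) * nf p (t α) (fun j => t (z j)) - 1‖ ≤ (1 / p : ℝ) ^ 3 := by
    have e1 := (hcl _).1 hz
    have e2 : t (algebraMap M F x * nf p α z) =
        t (algebraMap M F x) * nf p (t α) (fun j => t (z j)) := by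
      rw [map_mul, h7.1 p F 𝓕 t α z]
    rw [← e2]
    exact e1
  obtain ⟨w, hw, -⟩ := (h4 p 𝓕).1 _ hz'
  set Nn := nf p (t α) (fun j => t (z j)) with hNn
  have hNn0 : Nn ≠ 0 := by
    intro h0
    rw [h0, mul_zero, zero_sub, norm_neg, norm_one] at hz'
    linarith
  obtain ⟨c1, c2, c3⟩ := nf_closed h7 (p := p) hαt
  have htx0 : t (algebraMap M F x) ≠ 0 := by
    rw [map_ne_zero, map_ne_zero]
    exact hx0
  have hv0 : v ≠ 0 := by
    rintro rfl
    rw [zero_pow hp.out.ne_zero] at hv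
    exact mul_ne_zero htx0 (inv_ne_zero hu0) hv.symm
  have hfin : u = (w / v) ^ p * Nn⁻¹ := by
    rw [div_pow, hw, hv]
    field_simp
  obtain ⟨z', hz'⟩ := c1 _ _ (c2 (w / v)) (c3 Nn hNn0 ⟨_, rfl⟩)
  exact hu z' (by rw [hz', ← hfin])

end Pool.Agent.Helper94.WY
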